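import Pool.Agent.Helper96.PH.Params
import Pool.Agent.Helper78.NW.Push
import Pool.Agent.Helper1.NW.Sim

/-!
# Pushdown programs which are never wrong
-/

set_option autoImplicit false

namespace Pool.Agent.Helper58.PH

open Pool.Agent.Helper74.NW Pool.Agent.Helper96.PH
open Pool.Agent.Helper78.NW (Simulates nc)

variable {C W Z Q Γ : Type}

/-- From a bound for all nondeterministic programs which are never wrong (at most `Smax` states) to pushdown programs
which are never wrong. -/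
theorem push_of [Fintype C] [Finite W] [Fintype Q] (P : NPProg C W Z Q Γ) (rr : (C → W) → Z) (c0 : C) {b Smax : ℕ}
    (hQ : (2 * Fintype.card Q ^ 2 + 2) ^ (b + 2) ≤ Smax) (Φ Ψ : List C → Prop)
    (hΦ : ∀ l l', Φ l → l'.Perm (c0 :: l) → Ψ l') (X : ℝ)
    (hP : ∀ J l k z, P.Ends J l k z → z = rr J)
    (hmain : ∀ S ≤ Smax, ∀ P' : NProg C W Z S, (∀ J l z, P'.Ends J l z → z = rr J) →
      (Nat.card {J : C → W // (∃ l z, P'.Ends J l z) ∧ ∀ l z, P'.Shortest J l z → Ψ l} : ℝ) ≤ X) :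
    (Nat.card {J : C → W // (∃ l k z, P.Ends J l k z ∧ k ≤ 2 ^ b) ∧ ∀ l k z, P.Ends J l k z → Φ l} : ℝ) ≤ X := by
  classical
  have : Fintype W := Fintype.ofFinite W
  obtain ⟨S, hS, P', hB⟩ := Pool.Agent.Helper1.NW.sim P c0 b
  refine le_trans ?_ (hmain S (hS.trans hQ) P' ?_)
  · have h : Nat.card {J : C → W // (∃ l k z, P.Ends J l k z ∧ k ≤ 2 ^ b) ∧ ∀ l k z, P.Ends J l k z → Φ l} ≤
        Nat.card {J : C → W // (∃ l z, P'.Ends J l z) ∧ ∀ l z, P'.Shortest J l z → Ψ l} := by
      rw [nc, nc]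
      apply Finset.card_le_card
      intro J hJ
      rw [Finset.mem_filter] at hJ ⊢
      obtain ⟨_, ⟨l0, k0, z0, h0, hk0⟩, hall⟩ := hJ
      refine ⟨Finset.mem_univ _, ?_, ?_⟩
      · obtain ⟨l1, h1, _⟩ := (hB J).1 l0 k0 z0 h0 hk0
        exact ⟨_, _, h1⟩
      · intro l z hs
        obtain ⟨l1, n1, h1, hp⟩ := (hB J).2 l z hs.1
        exact hΦ l1 l (hall l1 n1 z h1) hp
    exact_mod_cast h
  · intro J l z hl
    obtain ⟨l1, n1, h1, _⟩ := (hB J).2 l z hl
    exact hP J l1 n1 z h1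

/-- The same with natural numbers. -/
theorem push_clause [Fintype C] [Finite W] [Fintype Q] (P : NPProg C W Z Q Γ) (rr : (C → W) → Z) (c0 : C)
    {b Smax N : ℕ} (hQ : (2 * Fintype.card Q ^ 2 + 2) ^ (b + 2) ≤ Smax) (Φ Ψ : List C → Prop)
    (hΦ : ∀ l l', Φ l → l'.Perm (c0 :: l) → Ψ l')
    (hP : ∀ J l k z, P.Ends J l k z → z = rr J)
    (hmain : ∀ S ≤ Smax, ∀ P' : NProg C W Z S, (∀ J l z, P'.Ends J l z → z = rr J) →
      100 * Nat.card {J : C → W // (∃ l z, P'.Ends J l z) ∧ ∀ l z, P'.Shortest J l z → Ψ l} ≤ N) :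
    100 * Nat.card {J : C → W // (∃ l k z, P.Ends J l k z ∧ k ≤ 2 ^ b) ∧ ∀ l k z, P.Ends J l k z → Φ l} ≤ N := by
  have h := push_of P rr c0 hQ Φ Ψ hΦ ((N : ℝ) / 100) hP (fun S hS P' hP' => by
    have h1 := hmain S hS P' hP'
    have h2 : (100 : ℝ) * Nat.card {J : C → W // (∃ l z, P'.Ends J l z) ∧ ∀ l z, P'.Shortest J l z → Ψ l} ≤ N := by
      exact_mod_cast h1
    linarith)
  have h3 : (100 : ℝ) * Nat.card {J : C → W // (∃ l k z, P.Ends J l k z ∧ k ≤ 2 ^ b) ∧
      ∀ l k z, P.Ends J l k z → Φ l} ≤ N := by linarith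
  exact_mod_cast h3

/-- If `ε k` cells are queried at most `r` times each, then the computation, with one query more and in any order, can
be cut into `r + 1` parts. -/
theorem cut_perm {B : Type} [Fintype B] [DecidableEq B] {ε : ℝ} {r : ℕ} (h0 : 0 < ε) (h1 : ε ≤ 1)
    (hk : ((r + 2) ^ 2 : ℝ) < ε * Fintype.card B) (c0 : B) (l l' : List B)
    (h : (∃ X : Finset B, ε * Fintype.card B ≤ X.card ∧ ∀ b ∈ X, l.count b ≤ r) ∨
      l.length < (r + 1) * win ε r (Fintype.card B)) (hp : l'.Perm (c0 :: l)) :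
    Cut (win ε r (Fintype.card B)) (r + 1) l' := by
  rcases h with ⟨X, hX, hl⟩ | hl
  · set k := Fintype.card B with hk'
    have hT : win ε r k ≤ k := by
      have h2 := win_le (r := r) (k := k) h1
      have h3 : (win ε r k : ℝ) ≤ k := by
        refine h2.trans ?_
        have h4 : 0 ≤ ε / (r + 2 : ℝ) := by positivity
        have h5 : (0 : ℝ) ≤ k := Nat.cast_nonneg _
        nlinarith
      exact_mod_cast h3
    have hr2 : (0 : ℝ) < r + 2 := by positivity
    have h4 : ((k - win ε r k : ℕ) : ℝ) < ε / (r + 2) * k + 1 := by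
      rw [Nat.cast_sub hT]
      have h5 := lt_win (ε := ε) (r := r) (k := k)
      linarith
    have hX' : X.card ≤ (X.erase c0).card + 1 := by
      have := Finset.pred_card_le_card_erase (s := X) (a := c0)
      omega
    have hXR : (X.card : ℝ) ≤ (X.erase c0).card + 1 := by exact_mod_cast hX'
    have h6 : ((r + 1 : ℕ) : ℝ) * ((k - win ε r k : ℕ) : ℝ) < (X.erase c0).card := by
      have h7 : ((r + 1 : ℕ) : ℝ) * ((k - win ε r k : ℕ) : ℝ) < (r + 1 : ℝ) * (ε / (r + 2) * k + 1) := by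
        push_cast
        exact mul_lt_mul_of_pos_left h4 (by positivity)
      have h8 : (r + 1 : ℝ) * (ε / (r + 2) * k + 1) = ε * k - 1 - (ε * k - (r + 2) ^ 2) / (r + 2) := by
        field_simp
        ring
      rw [h8] at h7
      have h9 : 0 ≤ (ε * k - (r + 2) ^ 2) / (r + 2 : ℝ) := div_nonneg (by linarith) hr2.le
      linarith
    have h7 : (r + 1) * (k - win ε r k) < (X.erase c0).card := by exact_mod_cast h6
    refine Pool.Agent.Helper6.PH.cut_of_count (r := r) l' (X.erase c0) (fun b hb => ?_) hT ?_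
    · rw [hp.count_eq, List.count_cons]
      have h8 : c0 ≠ b := (Finset.ne_of_mem_erase hb).symm
      have h9 := hl b (Finset.mem_of_mem_erase hb)
      simpa [h8] using h9
    · have h8 : k - win ε r k ≤ (X.erase c0).card := by
        refine le_trans ?_ h7.le
        exact Nat.le_mul_of_pos_left _ (Nat.succ_pos r)
      show r * (X.erase c0).card < (r + 1) * ((X.erase c0).card - (k - win ε r k))
      have h9 : (r + 1) * (X.erase c0).card = r * (X.erase c0).card + (X.erase c0).card := by ring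
      rw [Nat.mul_sub, h9]
      omega
  · refine Pool.Agent.Helper6.PH.cut_of_length l' ?_
    rw [hp.length_eq, List.length_cons]
    exact hl

end Pool.Agent.Helper58.PH
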